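import Pool.Agent.Helper97.TN.St3

set_option autoImplicit false

/-! Module R5 of project TN (MP_6090f9_nt): a common Galois extension. -/

namespace Pool.Agent.Helper40.TN

open Pool.Agent.Helper97.TN Pool.Agent.Helper95.TT Pool.Agent.Helper24.TF Pool.Agent.Helper96.BC
open NumberField

theorem hR5 : StR5 := by
  intro k _ _ ι _ K _ _ _
  have hfd : ∀ i, FiniteDimensional k (K i) := fun i => inferInstance
  set Ω := AlgebraicClosure k with hΩ
  let Lf : IntermediateField k Ω := ⨆ i, IntermediateField.normalClosure k (K i) Ω
  have hnorm : Normal k Lf := by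
    have : ∀ i, Normal k (IntermediateField.normalClosure k (K i) Ω) := fun i => inferInstance
    exact IntermediateField.normal_iSup k Ω _
  have hfin : FiniteDimensional k Lf := by
    have : ∀ i, FiniteDimensional k (IntermediateField.normalClosure k (K i) Ω) := fun i => inferInstance
    exact IntermediateField.finiteDimensional_iSup_of_finite
  have hnf : NumberField Lf := NumberField.of_module_finite k Lf
  have hgal : IsGalois k Lf := ⟨⟩
  have hle : ∀ i (x : K i →ₐ[k] Ω) (z : K i), x z ∈ Lf := by
    intro i x z
    have h1 : x.fieldRange ≤ Lf :=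
      (AlgHom.fieldRange_le_normalClosure x).trans
        (le_iSup (fun i => IntermediateField.normalClosure k (K i) Ω) i)
    exact h1 ⟨z, rfl⟩
  let e : ∀ i, (K i →ₐ[k] Ω) ≃ (K i →ₐ[k] Lf) := fun i =>
    { toFun := fun x => x.codRestrict Lf.toSubalgebra (fun z => hle i x z)
      invFun := fun x => Lf.val.comp x
      left_inv := fun x => by ext z; rfl
      right_inv := fun x => by ext z; rfl }
  have hx0 : ∀ i, ∃ x : K i →ₐ[k] Ω, True := fun i => ⟨IsAlgClosed.lift, trivial⟩
  choose x0 hx0' using hx0
  let al : ∀ i, Algebra (K i) Lf := fun i => (e i (x0 i)).toRingHom.toAlgebra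
  refine ⟨Lf, inferInstance, hnf, inferInstance, hgal, al, ?_,
    fun g => AlgEquiv.restrictNormalHom Lf g, e, ?_, ?_⟩
  · intro i
    refine IsScalarTower.of_algebraMap_eq (fun z => ?_)
    exact ((e i (x0 i)).commutes z).symm
  · exact AlgEquiv.restrictNormalHom_surjective Ω
  · intro i g x x'
    have h1 : ∀ z, ((AlgEquiv.restrictNormalHom Lf g (e i x z) : Lf) : Ω) = g (x z) := by
      intro z
      exact AlgEquiv.restrictNormal_commutes g Lf (e i x z)
    constructor
    · intro h z
      apply Subtype.ext
      rw [h1 z, h z]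
      rfl
    · intro h z
      rw [← h1 z, h z]
      rfl

end Pool.Agent.Helper40.TN
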